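import Pool.Agent.Lib.MP_b5021c_nt.IfaceO1
import Pool.Agent.Lib.MP_b5021c_nt.W.H80.Win

/-!
# (O2_C) the C-load of the swapped element (finding 3590 (3), helper40)
-/

namespace Pool.Agent.B5.H39

open Polynomial
open Pool.Agent.B5.Nr.Sch

/-- The final inequality. -/
theorem o2c_num {a p : ℝ} (hp0 : 0 < p) (hp1 : p ^ 2 + 2 * p ≤ 1) (hap : a ≤ p)
    (hlt : p < a * (1 + p - p ^ 2)) :
    0 < (-(2 - p) * (p - a) + a * p * (1 - a * p)) * ((1 - a ^ 2) - 2 * a * (1 - p)) -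
      (p * (1 - a * p) - a * (2 - p) * (p - a)) * (p * (1 - a ^ 2) - 2 * a * (1 - p)) := by
  have hp2 : p < 1 / 2 := by nlinarith
  have ha : 0 < a := by
    by_contra h
    push Not at h
    have : 0 < 1 + p - p ^ 2 := by nlinarith
    nlinarith [mul_nonneg (neg_nonneg.mpr h) this.le]
  set w := a * (1 + p - p ^ 2) - p with hw
  have hw0 : 0 < w := by rw [hw]; linarith
  have hB : 0 < 1 - p - 3 * p ^ 2 + p ^ 3 := by
    nlinarith [mul_nonneg hp0.le (sub_nonneg.mpr hp1)]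
  have hc1 : 0 < 1 - 2 * a * (1 - p) - a * p ^ 2 + a ^ 2 * p * (1 - 3 * p + p ^ 2) := by
    have h1 : a * (1 - p) ≤ 1 / 4 := by nlinarith [sq_nonneg (p - 1 / 2)]
    have h2 : a * p ^ 2 ≤ 1 / 8 := by
      have h3 : p ^ 2 ≤ 1 / 4 := by nlinarith
      nlinarith [sq_nonneg p]
    have h4 : a ^ 2 * p ≤ 1 / 8 := by
      have h3 : a ^ 2 ≤ 1 / 4 := by nlinarith
      nlinarith [sq_nonneg a]
    have h5 : -(1 / 2) ≤ 1 - 3 * p + p ^ 2 := by nlinarith [sq_nonneg p]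
    have h6 : 0 ≤ a ^ 2 * p := by positivity
    nlinarith [mul_le_mul_of_nonneg_left h5 h6]
  have hc2 : 0 < 1 - 4 * p + 3 * p ^ 2 + 2 * p ^ 3 - 4 * p ^ 4 + p ^ 5 + a * p := by
    have e : (1 + p - p ^ 2) *
        (1 - 4 * p + 3 * p ^ 2 + 2 * p ^ 3 - 4 * p ^ 4 + p ^ 5 + a * p) =
        (1 - p) ^ 3 * (1 + p) * (1 - p - 3 * p ^ 2 + p ^ 3) + p * w := by
      rw [hw]; ring
    have h1 : 0 < (1 - p) ^ 3 * (1 + p) * (1 - p - 3 * p ^ 2 + p ^ 3) + p * w := by
      have : 0 < 1 - p := by linarith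
      positivity
    rw [← e] at h1
    have h2 : 0 < 1 + p - p ^ 2 := by nlinarith
    exact (mul_pos_iff_of_pos_left h2).mp h1
  have e : (-(2 - p) * (p - a) + a * p * (1 - a * p)) * ((1 - a ^ 2) - 2 * a * (1 - p)) -
      (p * (1 - a * p) - a * (2 - p) * (p - a)) * (p * (1 - a ^ 2) - 2 * a * (1 - p)) =
      2 * (w * (1 - 2 * a * (1 - p) - a * p ^ 2 + a ^ 2 * p * (1 - 3 * p + p ^ 2)) +
        a ^ 3 * (1 - 4 * p + 3 * p ^ 2 + 2 * p ^ 3 - 4 * p ^ 4 + p ^ 5 + a * p)) := by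
    rw [hw]; ring
  rw [e]
  positivity

/-- `|2 f - q| ≤ |q|`. -/
theorem loc_swap {q f : ℤ[X]} {a : ℝ} (h : Loc q f a) (hm : MasA 1 q f) :
    Loc q (2 * f - q) a := by
  refine ⟨h.a0, h.a1, h.q0, fun z hz => ?_, h.s⟩
  have h1 := hm ⟨z, mem_sphere_zero_iff_norm.mpr hz⟩
  rw [map_one, Complex.one_re, one_mul] at h1
  have h1' : ‖aeval z (q - f)‖ ^ 2 ≤ ‖aeval z q‖ ^ 2 - ‖aeval z f‖ ^ 2 := h1
  have e1 : aeval z (2 * f - q) = aeval z f + (aeval z f - aeval z q) := by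
    simp only [map_sub, map_mul, map_ofNat]
    ring
  have e2 : aeval z q = aeval z f - (aeval z f - aeval z q) := by ring
  have h2 := parallelogram_law_with_norm ℝ (aeval z f) (aeval z f - aeval z q)
  rw [← e1, ← e2] at h2
  have h3 : ‖aeval z (q - f)‖ = ‖aeval z f - aeval z q‖ := by
    rw [map_sub, norm_sub_rev]
  rw [h3] at h1'
  have h4 : ‖aeval z (2 * f - q)‖ ^ 2 ≤ ‖aeval z q‖ ^ 2 := by nlinarith
  exact le_of_sq_le_sq h4 (norm_nonneg _)

/-- One Schur step for a ray `g`, `g(0) = 1`. -/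
theorem first_step {Q f : ℤ[X]} {a : ℝ} (h : Loc Q f a) (hu : f.coeff 0 = 1) {p : ℝ}
    (hp0 : 0 < p) (hp1 : p < 1) {l : ℝ}
    (hB : l * (aeval p Q : ℝ) + p * aeval p f ≤ 0)
    {Xi g1 : ℝ} (hXi : Xi = a⁻¹ - a)
    (hg1 : g1 = 1 - (f.coeff 1 - Q.coeff 1) / Xi) :
    ∃ r r1 : ℝ, |r| ≤ 1 ∧ -l * (p - a) / (p * (1 - a * p)) ≤ r ∧
      r1 = (r + a) / (p * (1 + a * r)) ∧ |r1| ≤ 1 ∧ |g1| ≤ 1 ∧ |r1 - g1| ≤ p * (1 - g1 * r1) := by
  obtain ⟨s, hs, hsp, s0, s1, s2, hneg⟩ := h.sp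
  have ha := h.a0
  have ha1 := h.a1
  have ha0 : a ≠ 0 := ha.ne'
  set F : ℝ[X] := f.map (Int.castRingHom ℝ) with hF
  set R : ℝ[X] := s * (1 - C a * X) with hR
  have hXi0 : 0 < Xi := by
    rw [hXi]
    have : 1 < a⁻¹ := (one_lt_inv₀ ha).mpr ha1
    linarith
  have f0 : F.coeff 0 = 1 := by rw [hF, coeff_map, hu]; simp
  have f1 : F.coeff 1 = f.coeff 1 := by rw [hF, coeff_map]; rfl
  have hRX : R = s - C a * (X * s) := by rw [hR]; ring
  have r0 : R.coeff 0 = -a⁻¹ := by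
    rw [hRX, coeff_sub, coeff_C_mul, coeff_X_mul_zero, mul_zero, sub_zero, s0]
  have r1c : R.coeff 1 = s.coeff 1 - a * s.coeff 0 := by
    rw [hRX, coeff_sub, coeff_C_mul, coeff_X_mul]
  have hg0 : F.coeff 0 = -a * R.coeff 0 := by
    rw [f0, r0]; field_simp
  obtain ⟨F1, hF1⟩ := exists_quot F R hg0
  have hsp1 := hsp.step (g := -a) (by rw [abs_neg, abs_of_pos ha]; exact ha1) hF1
  set R1 : ℝ[X] := R - C (-a) * F with hR1
  have F10 : F1.coeff 0 = (f.coeff 1 - Q.coeff 1) - Xi := by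
    have := congrArg (fun q => q.coeff 1) hF1
    simp only [coeff_X_mul, coeff_sub, coeff_C_mul] at this
    rw [this, f1, r1c, s1, s0, hXi]
    field_simp
    ring
  have R10 : R1.coeff 0 = -Xi := by
    rw [hR1, coeff_sub, coeff_C_mul, r0, f0, hXi]; ring
  have hx : |p| ≤ 1 := by rw [abs_of_pos hp0]; exact hp1.le
  have hRp := (hsp.ev hx).1
  set r := F.eval p / R.eval p with hr
  have hr1 := hsp.ratio hx
  have hrb : -l * (p - a) / (p * (1 - a * p)) ≤ r := by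
    have e1 : R.eval p = s.eval p * (1 - a * p) := by rw [hR, eval_mul]; simp
    have e2 : (aeval p Q : ℝ) = (p - a) * s.eval p := by
      have h1 : (aeval p Q : ℝ) = (Q.map (Int.castRingHom ℝ)).eval p := by
        rw [eval_map]; rfl
      rw [h1, hs, eval_mul]; simp
    have e3 : (aeval p f : ℝ) = F.eval p := by
      rw [hF, eval_map]; rfl
    have hsn := hneg p hp0.le hp1.le
    have h1ap : 0 < 1 - a * p := by nlinarith
    have hRn : R.eval p < 0 := by rw [e1]; exact mul_neg_of_neg_of_pos hsn h1ap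
    rw [e2, e3] at hB
    rw [hr, div_le_iff₀ (mul_pos hp0 h1ap)]
    have h2 : F.eval p / R.eval p * (p * (1 - a * p)) * R.eval p =
        F.eval p * p * (1 - a * p) := by
      field_simp
    by_contra hcon
    push Not at hcon
    have h3 := mul_lt_mul_of_neg_right hcon hRn
    rw [h2, e1] at h3
    have h4 : F.eval p * p * (1 - a * p) > -l * (p - a) * (s.eval p * (1 - a * p)) := h3
    have h5 : 0 < (1 - a * p) * (l * ((p - a) * s.eval p) + p * F.eval p) := by linarith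
    have h6 := mul_nonneg h1ap.le (neg_nonneg.mpr hB)
    linarith
  have h1ar : 0 < 1 + a * r := by
    have := abs_le.mp hr1
    nlinarith
  have hR1p := (hsp1.ev hx).1
  have hval1 := SP.step_val hF1 hRp hp0.ne' (by rw [← hr]; intro h; nlinarith)
  have hratio1 := hsp1.ratio hx
  have hr1e : F1.eval p / R1.eval p = (r + a) / (p * (1 + a * r)) := by
    rw [hR1, hval1, ← hr]
    congr 1 <;> ring
  have hg1e : F1.coeff 0 = g1 * R1.coeff 0 := by
    rw [F10, R10, hg1]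
    field_simp
    ring
  have hg1le : |g1| ≤ 1 := by
    obtain ⟨h1, h2⟩ := hsp1.coeff_le
    rw [hg1e, abs_mul] at h2
    have h3 := abs_pos.mpr h1
    exact le_of_mul_le_mul_right (by rw [one_mul]; exact h2) h3
  have hpick1 := hsp1.pick hg1e hp0.le hp1.le
  rw [hr1e] at hratio1 hpick1
  exact ⟨r, (r + a) / (p * (1 + a * r)), hr1, hrb, rfl, hratio1, hg1le, hpick1⟩

/-- **(O2_C).** -/
theorem o2c_st : O2cS := by
  intro q f a p j h hn hm hC
  have hp0 := h.p0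
  have hpj := h.pj
  have hap := h.ap
  have ha0 := h.loc.a0
  have hj2 : (2 : ℝ) ≤ j := by exact_mod_cast h.j2
  have hjp : (j : ℝ) * p = 1 - p ^ 2 := by
    rw [← hpj]; field_simp
  have hp1 : p ^ 2 + 2 * p ≤ 1 := by nlinarith
  have hp2 : p < 1 / 2 := by nlinarith
  have hlt : p < a * (1 + p - p ^ 2) := by
    have h1 := h.lt
    have h2 : p * 1 < p * (((j : ℝ) + 1) * a) := mul_lt_mul_of_pos_left h1 hp0
    have h3 : p * (((j : ℝ) + 1) * a) = a * ((j : ℝ) * p + p) := by ring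
    rw [h3, hjp] at h2
    linarith
  have hl := loc_swap h.loc hm
  have hu : (2 * f - q).coeff 0 = 1 := by
    rw [coeff_sub, show (2 : ℤ[X]) = C 2 from rfl, coeff_C_mul, h.f0, h.loc.q0]; norm_num
  have hn2 : (((2 * f - q).coeff 1 : ℤ) : ℝ) - q.coeff 1 = 2 * j := by
    rw [coeff_sub, show (2 : ℤ[X]) = C 2 from rfl, coeff_C_mul]
    have : ((f.coeff 1 - q.coeff 1 : ℤ) : ℝ) = j := by rw [hn]; simp
    push_cast at this ⊢
    linarith
  have hB : (2 - p) * (aeval p q : ℝ) + p * aeval p (2 * f - q) ≤ 0 := by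
    simp only [map_sub, map_mul, map_ofNat]
    nlinarith
  obtain ⟨r, r1, hr, hrb, hr1, hr1a, hg1a, hpick⟩ := first_step hl hu hp0 (by linarith) hB rfl rfl
  rw [hn2] at hg1a hpick
  set g1 : ℝ := 1 - 2 * j / (a⁻¹ - a) with hg1
  have ha1 : a < 1 / 2 := by linarith
  have h1a : 0 < 1 - a ^ 2 := by nlinarith
  have hap' : 0 < 1 - a * p := by nlinarith
  have hg1' : p * (1 - a ^ 2) * g1 = p * (1 - a ^ 2) - 2 * a * (1 - p ^ 2) := by
    have e1 : a⁻¹ - a = (1 - a ^ 2) / a := by field_simp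
    rw [hg1, e1, ← hjp]
    field_simp
  have h1ar : 0 < 1 + a * r := by
    have := abs_le.mp hr
    nlinarith
  have h1p : 0 < 1 + p := by linarith
  -- the Pick inequality without denominators
  have hk : (r + a) * ((1 - a ^ 2) - 2 * a * (1 - p)) ≤
      (1 + a * r) * (p * (1 - a ^ 2) - 2 * a * (1 - p)) := by
    have h1 := (abs_le.mp hpick).2
    have h2 : r1 * (1 + p * g1) ≤ p + g1 := by linarith
    have h3 : (r + a) * (1 + p * g1) ≤ (p * (1 + a * r)) * (p + g1) := by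
      have h4 := mul_le_mul_of_nonneg_left h2 (mul_pos hp0 h1ar).le
      have h5 : p * (1 + a * r) * (r1 * (1 + p * g1)) = (r + a) * (1 + p * g1) := by
        rw [hr1]; field_simp
      rwa [h5] at h4
    have h6 := mul_le_mul_of_nonneg_left h3 (h1a.le)
    have h7 : (1 - a ^ 2) * ((r + a) * (1 + p * g1)) =
        (1 + p) * ((r + a) * ((1 - a ^ 2) - 2 * a * (1 - p))) := by
      linear_combination (r + a) * hg1'
    have h8 : (1 - a ^ 2) * ((p * (1 + a * r)) * (p + g1)) =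
        (1 + p) * ((1 + a * r) * (p * (1 - a ^ 2) - 2 * a * (1 - p))) := by
      linear_combination (1 + a * r) * hg1'
    rw [h7, h8] at h6
    exact le_of_mul_le_mul_left h6 h1p
  have hrb' : -(2 - p) * (p - a) ≤ r * (p * (1 - a * p)) := by
    rwa [div_le_iff₀ (mul_pos hp0 hap')] at hrb
  have hnum := o2c_num hp0 hp1 hap hlt
  set R1 := (1 - a ^ 2) - 2 * a * (1 - p) with hR1
  set R2 := p * (1 - a ^ 2) - 2 * a * (1 - p) with hR2
  have hco : 0 ≤ R1 - a * R2 := by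
    rw [hR1, hR2]
    nlinarith [mul_pos hp0 ha0, mul_nonneg hp0.le (sub_nonneg.mpr hap)]
  have h9 : r * (R1 - a * R2) ≤ R2 - a * R1 := by linarith
  have h10 := mul_le_mul_of_nonneg_right hrb' hco
  have h11 := mul_le_mul_of_nonneg_left h9 (mul_pos hp0 hap').le
  nlinarith

end Pool.Agent.B5.H39
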