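import Pool.Agent.Lib.MP_b5021c_nt.O1.H39.MasE

/-!
# (O2_M) the mass at the A-load is one (finding 3590 (4), helper40)
-/

namespace Pool.Agent.B5.H39

open Polynomial Metric Filter Topology
open Pool.Agent.B5.Nr.Sch
open Pool.Agent.B5.H39.Cara

/-- The mass `|1 - z|²`. -/
theorem mass_two {t : RO ℤ} (hN : NnR t) (h0 : t.coeff 0 = 2) (h1 : t.coeff 1 = -1) :
    ∀ k : ℤ, 2 ≤ k → t.coeff k = 0 := by
  have hc : (cst t : AO ℤ PUnit).coeff 0 = t := by simp [cst]
  have h2 := SFH59.fjt PUnit (cst t) 2 (-1) (by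
    intro z u
    rw [SFH59.ev_cst]
    exact hN z) le_rfl (Or.inr rfl) (by rw [hc, h0]; norm_num) (by rw [hc, h1]; norm_num)
  have h3 : t = fej (-1) 2 := by
    have h4 := congrArg (fun P : AO ℤ PUnit => P.coeff 0) h2
    simpa [cst] using h4
  have h4 : fej (-1) 2 = LaurentPolynomial.C 2 - LaurentPolynomial.T 1 -
      LaurentPolynomial.T (-1) := by
    unfold fej
    simp only [Finset.sum_range_succ, Finset.sum_range_zero, pow_zero, pow_one, zero_add,
      Nat.cast_zero, Nat.cast_one, LaurentPolynomial.T_zero, map_one, mul_one, neg_zero, map_neg]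
    have h5 := SFH59.T_neg_mul 1
    have h6 : (LaurentPolynomial.C 2 : RO ℤ) = 2 := by simp
    rw [h6]
    linear_combination h5
  intro k hk
  rw [h3, h4]
  have e1 : (LaurentPolynomial.C 2 : RO ℤ).coeff k = 0 := by
    have : (LaurentPolynomial.C 2 : RO ℤ) = AddMonoidAlgebra.single 0 2 := rfl
    rw [this, AddMonoidAlgebra.coeff_single, Finsupp.single_eq_of_ne (by omega)]
  have e2 : ∀ n : ℤ, n ≠ k → (LaurentPolynomial.T n : RO ℤ).coeff k = 0 := by
    intro n hn
    have : (LaurentPolynomial.T n : RO ℤ) = AddMonoidAlgebra.single n 1 := rfl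
    rw [this, AddMonoidAlgebra.coeff_single, Finsupp.single_eq_of_ne (by omega)]
  rw [AddMonoidAlgebra.coeff_sub, AddMonoidAlgebra.coeff_sub, Finsupp.sub_apply, Finsupp.sub_apply,
    e1, e2 1 (by omega), e2 (-1) (by omega)]
  norm_num

/-- The tangent inequality. -/
theorem _root_.Pool.Agent.B5.H39.Cara.Car.tan {g : ℂ → ℂ} {c : ℕ → ℝ} (hg : Car g c) {a m : ℝ}
    (ha0 : 0 ≤ a) (ha1 : a < 1) (hm : |m| ≤ 1) (hc : 2 * m * c 0 ≤ c 1) :
    c 0 * ((1 - a ^ 2) / (1 - 2 * a * m + a ^ 2)) ≤ (g a).re := by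
  have hD := pk_pos (x := a) (abs_lt.mpr ⟨by linarith, ha1⟩) hm
  set D := 1 - 2 * a * m + a ^ 2 with hDd
  have ha2 : 0 ≤ 1 - a ^ 2 := by nlinarith
  have h1 := hg.kip3 (x := a) (y := a) (A := 1) (B := 0) (β := -((1 - a ^ 2) * (2 * a) / D ^ 2))
    (γ := -((1 - a ^ 2) / D - m * ((1 - a ^ 2) * (2 * a) / D ^ 2)))
    (abs_lt.mpr ⟨by linarith, ha1⟩) (abs_lt.mpr ⟨by linarith, ha1⟩) (by
      intro s hs
      have hs2 := pk_pos (x := a) (abs_lt.mpr ⟨by linarith, ha1⟩) hs
      have e : 1 * ((1 - a ^ 2) / (1 - 2 * a * s + a ^ 2)) +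
          0 * ((1 - a ^ 2) / (1 - 2 * a * s + a ^ 2)) + -((1 - a ^ 2) * (2 * a) / D ^ 2) * s +
          -((1 - a ^ 2) / D - m * ((1 - a ^ 2) * (2 * a) / D ^ 2)) =
          (1 - a ^ 2) * (2 * a * (s - m)) ^ 2 / ((1 - 2 * a * s + a ^ 2) * D ^ 2) := by
        have n1 := hs2.ne'
        have n2 := hD.ne'
        have e1 : 1 - 2 * a * s + a ^ 2 = D - 2 * a * (s - m) := by rw [hDd]; ring
        rw [e1] at n1 ⊢
        clear_value D
        generalize hu : 2 * a * (s - m) = u at *
        have e2 : -((1 - a ^ 2) * (2 * a) / D ^ 2) * s + m * ((1 - a ^ 2) * (2 * a) / D ^ 2) =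
            -((1 - a ^ 2) * u / D ^ 2) := by rw [← hu]; ring
        have e3 : 1 * ((1 - a ^ 2) / (D - u)) + 0 * ((1 - a ^ 2) / (D - u)) +
            -((1 - a ^ 2) * (2 * a) / D ^ 2) * s +
            -((1 - a ^ 2) / D - m * ((1 - a ^ 2) * (2 * a) / D ^ 2)) =
            (1 - a ^ 2) / (D - u) - (1 - a ^ 2) / D +
            (-((1 - a ^ 2) * (2 * a) / D ^ 2) * s + m * ((1 - a ^ 2) * (2 * a) / D ^ 2)) := by ring
        rw [e3, e2]
        field_simp
        ring
      rw [e]
      positivity)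
  have h2 : 0 ≤ (1 - a ^ 2) * (2 * a) / D ^ 2 * (c 1 / 2 - m * c 0) := by
    have : 0 ≤ c 1 / 2 - m * c 0 := by linarith
    positivity
  nlinarith

/-- `r(a) ≥ 2 - 2 a²/(1 - a)`. -/
theorem tail_two {g : ℂ → ℂ} {c : ℕ → ℝ} (hg : Car g c) {a : ℝ} (ha0 : 0 ≤ a) (ha1 : a < 1)
    (h0 : c 0 = 2) (h1 : 0 ≤ c 1) (hk : ∀ k, -2 ≤ c k) :
    2 - 2 * a ^ 2 / (1 - a) ≤ (g a).re := by
  have h2 := hg.hasSum_real (x := a) (abs_lt.mpr ⟨by linarith, ha1⟩)
  have h3 := (hasSum_geometric_of_lt_one ha0 ha1).mul_left 2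
  have h4 := h2.add h3
  have h5 := sum_le_hasSum (Finset.range 2) (fun k _ => by
    have e : c k * a ^ k + 2 * a ^ k = (c k + 2) * a ^ k := by ring
    rw [e]
    exact mul_nonneg (by linarith [hk k]) (pow_nonneg ha0 k)) h4
  simp only [Finset.sum_range_succ, Finset.sum_range_zero, pow_zero, pow_one, zero_add, h0] at h5
  have h6 : 0 < 1 - a := by linarith
  have h7 : 2 - 2 * a ^ 2 / (1 - a) = 4 + 2 * a - 2 * (1 - a)⁻¹ := by
    field_simp
    ring
  rw [h7]
  nlinarith [mul_nonneg h1 ha0]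

variable {q f : ℤ[X]} {a : ℝ} {n : ℕ} {E N : ℝ[X]}

theorem aeval_real (P : ℤ[X]) (x : ℝ) : (aeval x P : ℝ) = (P.map (Int.castRingHom ℝ)).eval x := by
  rw [eval_map]; rfl

theorem LE.evr (h : LE q f a n E N) (x : ℝ) :
    x * E.eval x = (aeval x f : ℝ) - aeval x q := by
  have h1 := congrArg (fun p => p.eval x) h.e
  simpa [aeval_real] using h1

theorem LE.evNr (h : LE q f a n E N) (x : ℝ) :
    x * N.eval x = 2 / n * (1 - x ^ 2) * E.eval x - ((aeval x q : ℝ) + aeval x f) := by
  have h1 := congrArg (fun p => p.eval x) h.N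
  simpa [aeval_real] using h1

theorem LE.Epos (h : LE q f a n E N) {x : ℝ} (hx0 : 0 ≤ x) (hx1 : x < 1) : 0 < E.eval x := by
  by_contra hcon
  push Not at hcon
  have h0 : 0 < E.eval 0 := by
    rw [← coeff_zero_eq_eval_zero, h.e0]; exact h.n0
  have hc : ContinuousOn (fun t => E.eval t) (Set.Icc 0 x) := by fun_prop
  have hmem : (0 : ℝ) ∈ Set.Icc (E.eval x) (E.eval 0) := ⟨hcon, h0.le⟩
  obtain ⟨t, ht, ht0⟩ := intermediate_value_Icc' hx0 hc hmem
  have h1 := h.ne (t : ℂ) (by
    rw [Complex.norm_real, Real.norm_eq_abs, abs_of_nonneg ht.1]; linarith [ht.2])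
  rw [aeval_re] at h1
  exact h1 (by simp only at ht0; rw [ht0]; rfl)

theorem LE.qa (h : LE q f a n E N) : (aeval a q : ℝ) = 0 := by
  obtain ⟨s, hs, -⟩ := h.loc.sp
  rw [aeval_real, hs]; simp

theorem LE.qpos (h : LE q f a n E N) {x : ℝ} (hx0 : 0 ≤ x) (hx : x < a) : 0 < (aeval x q : ℝ) := by
  obtain ⟨s, hs, hsp, s0, s1, s2, hneg⟩ := h.loc.sp
  rw [aeval_real, hs]
  simp only [eval_mul, eval_sub, eval_X, eval_C]
  exact mul_pos_of_neg_of_neg (by linarith) (hneg x hx0 (by linarith [h.loc.a1]))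

/-- The value of `C_A - r` at a real point. -/
theorem LE.val (h : LE q f a n E N) (r : ℝ[X]) {x : ℝ} (hx0 : 0 ≤ x) (hx1 : x < 1) :
    (aeval (x : ℂ) (N - r * E) / aeval (x : ℂ) E).re = N.eval x / E.eval x - r.eval x := by
  rw [aeval_re, aeval_re, ← Complex.ofReal_div, Complex.ofReal_re]
  have := (h.Epos hx0 hx1).ne'
  rw [eval_sub, eval_mul]
  field_simp

/-- **(O2_M).** -/
theorem o2m_st : O2mS := by
  intro q f a p j t h hn ht hN hm
  have hp0 := h.p0
  have hpj := h.pj
  have hap := h.ap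
  have ha0 := h.loc.a0
  have hj2 : (2 : ℝ) ≤ j := by exact_mod_cast h.j2
  have hjp : (j : ℝ) * p = 1 - p ^ 2 := by
    rw [← hpj]; field_simp
  have hlt := h.lt
  have hp1 : p ^ 2 + 2 * p ≤ 1 := by nlinarith
  have hp2 : p < 1 / 2 := by nlinarith
  have ha2 : a < 1 / 2 := by linarith
  have hja : (j : ℝ) * a ≤ 1 - a ^ 2 := by
    have h1 : (j : ℝ) * a ≤ j * p := mul_le_mul_of_nonneg_left hap (by linarith)
    nlinarith
  obtain ⟨E, N, hL⟩ := exists_LE h.loc h.f0 (n := j) hn (by have := h.j2; omega)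
  obtain ⟨r, cr, hr, hr0, hrn, hre, hrc, ht1, htk, h1t⟩ := mass_r ht hN
  obtain ⟨c, hc⟩ := hL.sub hm hre
  -- the value at `a`
  have hEa := hL.Epos ha0.le (by linarith)
  have hva : N.eval a / E.eval a = 2 * (1 - a ^ 2) / (a * j) - 1 := by
    have e1 := hL.evr a
    have e2 := hL.evNr a
    rw [hL.qa] at e1 e2
    have hj0 : (j : ℝ) ≠ 0 := by positivity
    rw [div_eq_iff hEa.ne']
    have e3 : a * N.eval a = a * ((2 * (1 - a ^ 2) / (a * j) - 1) * E.eval a) := by
      rw [e2]
      field_simp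
      linear_combination (j : ℝ) * e1
    exact mul_left_cancel₀ ha0.ne' e3
  have hle : (aeval (a : ℂ) r).re ≤ 2 * (1 - a ^ 2) / (a * j) - 1 := by
    have h1 := hc.pos (a : ℂ) (by
      rw [Complex.norm_real, Real.norm_eq_abs, abs_of_pos ha0]; linarith)
    rw [hL.val r ha0.le (by linarith), hva] at h1
    rw [aeval_re, Complex.ofReal_re]
    linarith
  by_contra hne
  have ht2 : 2 ≤ t.coeff 0 := by
    by_contra hcon
    push Not at hcon
    exact hne (h1t (by omega))
  have h1a : 0 < 1 - a := by linarith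
  have hharn : cr 0 * (1 - a) ≤ (aeval (a : ℂ) r).re * (1 + a) := by
    have h1 := hr.har' (x := 0) (y := a) le_rfl ha0.le (by linarith)
    have h2 : (aeval (((0 : ℝ) : ℂ)) r).re = cr 0 := by
      have := hr.zero
      rw [Complex.ofReal_zero, this, Complex.ofReal_re]
    rw [h2] at h1
    linarith
  have haj : 1 - a < a * j := by linarith
  have haj0 : 0 < a * j := by linarith
  -- `t_0 = 2`, `t_1 ≥ 0`
  have hB : ∀ hh : t.coeff 0 = 2, 0 ≤ t.coeff 1 →
      2 - 2 * a ^ 2 / (1 - a) ≤ (aeval (a : ℂ) r).re := by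
    intro h0 h1
    refine tail_two hr ha0.le (by linarith) (by rw [hr0, h0]; norm_num) ?_ fun k => ?_
    · have e := hrn 0
      simp only [zero_add, Nat.cast_zero] at e
      rw [e]
      have : (0 : ℝ) ≤ t.coeff 1 := by exact_mod_cast h1
      linarith
    · cases k with
      | zero => rw [hr0, h0]; norm_num
      | succ k =>
        rw [hrn]
        have h3 := htk ((k : ℤ) + 1) (by omega)
        rw [h0] at h3
        have h4 := (abs_lt.mp h3).1
        have h5 : (-1 : ℤ) ≤ t.coeff ((k : ℤ) + 1) := by omega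
        have h6 : (-1 : ℝ) ≤ t.coeff ((k : ℤ) + 1) := by exact_mod_cast h5
        linarith
  -- `t_0 = 2`, `t_1 = -1`
  have hC : ∀ hh : t.coeff 0 = 2, t.coeff 1 = -1 → ∀ x : ℝ, r.eval x = 2 - 2 * x := by
    intro h0 h1 x
    have h2 := mass_two hN h0 h1
    have e : r = C 2 - C 2 * X := by
      ext k
      rw [hrc]
      rcases k with _ | _ | k
      · rw [hr0, h0]; simp
      · rw [hrn]
        simp only [Nat.cast_zero, zero_add, h1]
        simp
      · rw [hrn]
        have h3 := h2 (((k + 1 : ℕ) : ℤ) + 1) (by push_cast; omega)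
        rw [h3]
        simp
    rw [e]
    simp
  rcases (by have := h.j2; omega : j = 2 ∨ 3 ≤ j) with hj | hj3
  · -- `j = 2`
    subst hj
    push_cast at hjp hlt haj haj0 hle hja
    have ha3 : 1 / 3 < a := by linarith
    have hpe : p ^ 2 + 2 * p = 1 := by linarith
    have hle' : (aeval (a : ℂ) r).re * a ≤ 1 - a ^ 2 - a := by
      have h1 := mul_le_mul_of_nonneg_right hle ha0.le
      have h2 : (2 * (1 - a ^ 2) / (a * 2) - 1) * a = 1 - a ^ 2 - a := by
        field_simp
      rwa [h2] at h1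
    rcases (by omega : t.coeff 0 = 2 ∨ t.coeff 0 = 3 ∨ 4 ≤ t.coeff 0) with h0 | h0 | h0
    · have h1 := htk 1 one_ne_zero
      rw [h0] at h1
      have h1' := (abs_lt.mp h1).1
      rcases (by omega : t.coeff 1 = -1 ∨ 0 ≤ t.coeff 1) with h2 | h2
      · -- the function `Phi`
        have hrx := hC h0 h2
        have hp3 : 1 / 3 ≤ p := by linarith
        have hH := hc.har (x := 1 / 3) (y := p) (by norm_num) hp3 (by linarith)
        rw [hL.val r hp0.le (by linarith), hL.val r (by norm_num) (by norm_num), hrx, hrx] at hH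
        have hEp := hL.Epos hp0.le (by linarith)
        have hE3 := hL.Epos (x := 1 / 3) (by norm_num) (by norm_num)
        have hq3 := hL.qpos (x := 1 / 3) (by norm_num) ha3
        have v3 : N.eval (1 / 3) / E.eval (1 / 3) < 5 / 3 := by
          rw [div_lt_iff₀ hE3]
          have e1 := hL.evr (1 / 3)
          have e2 := hL.evNr (1 / 3)
          push_cast at e2
          linarith
        have vp : 2 - p ≤ N.eval p / E.eval p := by
          rw [le_div_iff₀ hEp]
          have e1 := hL.evr p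
          have e2 := hL.evNr p
          have hBq := h.B
          push_cast at e2
          have h5 : p * ((2 - p) * E.eval p) ≤ p * N.eval p := by
            rw [e2]
            have h6 : (2 : ℝ) / 2 * (1 - p ^ 2) * E.eval p = 2 * (p * E.eval p) := by
              have : 1 - p ^ 2 = 2 * p := by linarith
              rw [this]; ring
            rw [h6]
            -- `(1 + p) (q + f) ≤ (1 - p) (f - q)`
            have h7 : (1 + p) * ((aeval p q : ℝ) + aeval p f) ≤
                (1 - p) * (p * E.eval p) := by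
              rw [e1]; linarith
            have h8 : 1 - p = p * (1 + p) := by linarith
            rw [h8] at h7
            have h9 : (1 + p) * ((aeval p q : ℝ) + aeval p f) ≤
              (1 + p) * (p * (p * E.eval p)) := by linarith
            have h10 := le_of_mul_le_mul_left h9 (by linarith)
            linarith
          exact le_of_mul_le_mul_left h5 hp0
        have hp7 : 7 / 17 < p := by nlinarith
        have k1 : 0 ≤ (N.eval p / E.eval p - (2 - 2 * p) - p) * ((1 + 1 / 3) * (1 - p)) :=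
          mul_nonneg (by linarith) (mul_nonneg (by norm_num) (by linarith))
        have k2 : 0 < (1 / 3 - (N.eval (1 / 3) / E.eval (1 / 3) - (2 - 2 * (1 / 3)))) *
            ((1 - 1 / 3) * (1 + p)) :=
          mul_pos (by linarith) (mul_pos (by norm_num) (by linarith))
        have k3 : p * ((1 + 1 / 3) * (1 - p)) < 1 / 3 * ((1 - 1 / 3) * (1 + p)) := by linarith
        have k4 : p * p = 1 - 2 * p := by linarith
        nlinarith
      · have h3 := hB h0 h2
        have h4 : 2 - 2 * a ^ 2 / (1 - a) ≤ (aeval (a : ℂ) r).re := h3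
        have h5 := mul_le_mul_of_nonneg_right h4 (mul_pos ha0 h1a).le
        have h6 : (2 - 2 * a ^ 2 / (1 - a)) * (a * (1 - a)) = 2 * a * (1 - a) - 2 * a ^ 3 := by
          field_simp
        rw [h6] at h5
        have h7 := mul_le_mul_of_nonneg_right hle' h1a.le
        have h8 : 0 < -1 + 4 * a - 2 * a ^ 2 - 3 * a ^ 3 := by
          have h9 : 0 < 3 - 3 * a - 3 * a ^ 2 := by nlinarith
          have h10 : 0 < (a - 1 / 3) * (3 - 3 * a - 3 * a ^ 2) := mul_pos (by linarith) h9
          linarith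
        linarith
    · -- `t_0 = 3`
      have h1 := htk 1 one_ne_zero
      rw [h0] at h1
      have h1' := (abs_lt.mp h1).1
      have h2 : (-2 : ℝ) ≤ t.coeff 1 := by
        have : (-2 : ℤ) ≤ t.coeff 1 := by omega
        exact_mod_cast this
      have h3 := hr.tan (a := a) (m := -(2 / 3)) ha0.le (by linarith)
        (by rw [abs_neg, abs_of_pos (by norm_num)]; norm_num) (by
        have e := hrn 0
        simp only [zero_add, Nat.cast_zero] at e
        rw [e, hr0, h0]
        push_cast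
        linarith)
      rw [hr0, h0] at h3
      have h4 := mul_le_mul_of_nonneg_right h3 ha0.le
      have hD : 0 < 1 - 2 * a * -(2 / 3) + a ^ 2 := by nlinarith
      have h5 : ((3 : ℤ) : ℝ) * ((1 - a ^ 2) / (1 - 2 * a * -(2 / 3) + a ^ 2)) * a =
          3 * a * (1 - a ^ 2) / (1 - 2 * a * -(2 / 3) + a ^ 2) := by push_cast; ring
      rw [h5, div_le_iff₀ hD] at h4
      have h6 := mul_le_mul_of_nonneg_right hle' hD.le
      have h7 : 0 < -3 + 8 * a + 4 * a ^ 2 - 2 * a ^ 3 + 3 * a ^ 4 := by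
        have h8 : 1 / 9 < a ^ 2 := by nlinarith
        have h9 : 0 < (a ^ 2 - 1 / 9) * (2 - a) := mul_pos (by linarith) (by linarith)
        have h10 : 0 < a ^ 4 := by positivity
        linarith
      linarith
    · have h1 : (4 : ℝ) ≤ cr 0 := by rw [hr0]; exact_mod_cast h0
      have h2 : 4 * (1 - a) ≤ (aeval (a : ℂ) r).re * (1 + a) := by
        have := mul_le_mul_of_nonneg_right h1 h1a.le
        linarith
      have h3 := mul_le_mul_of_nonneg_right h2 ha0.le
      have h4 := mul_le_mul_of_nonneg_right hle' (by linarith : (0 : ℝ) ≤ 1 + a)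
      have h5 : 0 < a ^ 3 - 2 * a ^ 2 + 4 * a - 1 := by
        have h6 : 0 < (a - 1 / 3) * (2 - a) := mul_pos (by linarith) (by linarith)
        have h7 : 0 < a ^ 3 := by positivity
        linarith
      linarith
  · -- `j ≥ 3`
    have hj3' : (3 : ℝ) ≤ j := by exact_mod_cast hj3
    have ha3 : 3 * a ≤ 1 - a ^ 2 := by nlinarith
    have hle' : (aeval (a : ℂ) r).re * (a * j) ≤ 2 * (1 - a ^ 2) - a * j := by
      have h1 := mul_le_mul_of_nonneg_right hle haj0.le
      have h2 : (2 * (1 - a ^ 2) / (a * j) - 1) * (a * j) = 2 * (1 - a ^ 2) - a * j := by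
        field_simp
      rwa [h2] at h1
    have hr0' : 0 ≤ (aeval (a : ℂ) r).re := hr.pos _ (by
      rw [Complex.norm_real, Real.norm_eq_abs, abs_of_pos ha0]; linarith)
    have hr2 : (aeval (a : ℂ) r).re < 1 + 2 * a := by
      have h1 : ((aeval (a : ℂ) r).re + 1) * (1 - a) < ((aeval (a : ℂ) r).re + 1) * (a * j) :=
        mul_lt_mul_of_pos_left haj (by linarith)
      have h2 : ((aeval (a : ℂ) r).re + 1) * (1 - a) < (2 * (1 + a)) * (1 - a) := by linarith
      have h3 := lt_of_mul_lt_mul_right h2 h1a.le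
      linarith
    rcases (by omega : t.coeff 0 = 2 ∨ 3 ≤ t.coeff 0) with h0 | h0
    · have h1 := htk 1 one_ne_zero
      rw [h0] at h1
      have h1' := (abs_lt.mp h1).1
      rcases (by omega : t.coeff 1 = -1 ∨ 0 ≤ t.coeff 1) with h2 | h2
      · rw [aeval_re, Complex.ofReal_re, hC h0 h2] at hle'
        rcases (by omega : j = 3 ∨ 4 ≤ j) with hj | hj
        · subst hj
          push_cast at hle' hlt
          have h3 : 0 < (4 * a - 1) * (2 - a) := mul_pos (by linarith) (by linarith)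
          linarith
        · have hj4 : (4 : ℝ) ≤ j := by exact_mod_cast hj
          have h3 : 4 * a ≤ j * a := mul_le_mul_of_nonneg_right hj4 ha0.le
          have h4 : 0 < (1 - a) * (1 - 4 * a) := by
            refine mul_pos h1a ?_
            have : 0 < a ^ 2 := by positivity
            linarith
          have h5 : (3 - 2 * a) * (1 - a) < (3 - 2 * a) * (a * j) :=
            mul_lt_mul_of_pos_left haj (by linarith)
          linarith
      · have h3 := hB h0 h2
        have h4 : 2 - 2 * a ^ 2 / (1 - a) < 1 + 2 * a := lt_of_le_of_lt h3 hr2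
        have h5 := mul_lt_mul_of_pos_right h4 h1a
        have h6 : (2 - 2 * a ^ 2 / (1 - a)) * (1 - a) = 2 * (1 - a) - 2 * a ^ 2 := by
          field_simp
        rw [h6] at h5
        have : 0 < a ^ 2 := by positivity
        linarith
    · have h1 : (3 : ℝ) ≤ cr 0 := by rw [hr0]; exact_mod_cast h0
      have h2 : 3 * (1 - a) ≤ (aeval (a : ℂ) r).re * (1 + a) := by
        have := mul_le_mul_of_nonneg_right h1 h1a.le
        linarith
      have h3 := mul_lt_mul_of_pos_right hr2 (by linarith : (0 : ℝ) < 1 + a)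
      linarith

end Pool.Agent.B5.H39
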