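import Pool.Agent.Lib.MP_b5021c_nt.KO.H39.Quo
import Pool.Agent.Lib.MP_b5021c_nt.W.H80.Win

/-!
# The function `C_A` of an A-load (any `E_0`)

`f - q = X E`, `n = E(0)`; `C_A = (q + f)/(q - f) + (2/n) (1/z - z) = N / E`.
-/

namespace Pool.Agent.B5.H39

open Polynomial Metric Filter Topology
open Pool.Agent.B5.Nr.Sch
open Pool.Agent.B5.H39.Cara

/-- The data of an A-load. -/
structure LE (q f : ℤ[X]) (a : ℝ) (n : ℕ) (E N : ℝ[X]) : Prop where
  loc : Loc q f a
  f0 : f.coeff 0 = 1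
  n1 : 1 ≤ n
  e : X * E = f.map (Int.castRingHom ℝ) - q.map (Int.castRingHom ℝ)
  e0 : E.coeff 0 = n
  N : X * N = C (2 / (n : ℝ)) * (1 - X ^ 2) * E -
    (q.map (Int.castRingHom ℝ) + f.map (Int.castRingHom ℝ))

theorem exists_LE {q f : ℤ[X]} {a : ℝ} (h : Loc q f a) (hf : f.coeff 0 = 1) {n : ℕ}
    (hn : f.coeff 1 - q.coeff 1 = n) (hn1 : 1 ≤ n) : ∃ E N : ℝ[X], LE q f a n E N := by
  have hq0 := h.q0
  have h0 : (X : ℝ[X]) ∣ f.map (Int.castRingHom ℝ) - q.map (Int.castRingHom ℝ) := by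
    rw [X_dvd_iff, coeff_sub, coeff_map, coeff_map, hf, hq0, sub_self]
  obtain ⟨E, hE⟩ := h0
  have hE0 : E.coeff 0 = n := by
    have h1 := congrArg (fun p => p.coeff 1) hE
    simp only [coeff_sub, coeff_map, coeff_X_mul] at h1
    rw [← h1]
    have h2 : ((f.coeff 1 - q.coeff 1 : ℤ) : ℝ) = n := by rw [hn]; simp
    push_cast at h2
    simpa using h2
  have hn0 : (n : ℝ) ≠ 0 := by
    have : n ≠ 0 := by omega
    exact_mod_cast this
  have h1 : (X : ℝ[X]) ∣ C (2 / (n : ℝ)) * (1 - X ^ 2) * E -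
      (q.map (Int.castRingHom ℝ) + f.map (Int.castRingHom ℝ)) := by
    rw [X_dvd_iff, coeff_sub, coeff_add, coeff_map, coeff_map, hf, hq0, mul_assoc, coeff_C_mul,
      mul_coeff_zero, hE0]
    simp
    field_simp
    norm_num
  obtain ⟨N, hN⟩ := h1
  exact ⟨E, N, h, hf, hn1, hE.symm, hE0, hN.symm⟩

variable {q f : ℤ[X]} {a : ℝ} {n : ℕ} {E N : ℝ[X]}

theorem LE.n0 (h : LE q f a n E N) : (0 : ℝ) < n := by
  have := h.n1
  exact_mod_cast (by omega : 0 < n)

theorem LE.ev (h : LE q f a n E N) (z : ℂ) : z * aeval z E = aeval z f - aeval z q := by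
  have h1 := congrArg (fun p => aeval z p) h.e
  simpa [aeval_map_real] using h1

theorem LE.evN (h : LE q f a n E N) (z : ℂ) :
    z * aeval z N = 2 / n * (1 - z ^ 2) * aeval z E - (aeval z q + aeval z f) := by
  have h1 := congrArg (fun p => aeval z p) h.N
  simpa [aeval_map_real] using h1

/-- The first Schur step. -/
theorem LE.step (h : LE q f a n E N) : ∃ s F1 R1 : ℝ[X],
    q.map (Int.castRingHom ℝ) = (X - C a) * s ∧ SP F1 R1 ∧
    R1 - F1 = -((1 - C a * X) * E) ∧ R1.coeff 0 = -(a⁻¹ - a) ∧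
    X * (R1 + F1) = (X + C a) * (s * (1 - C a * X)) +
      (1 + C a * X) * f.map (Int.castRingHom ℝ) := by
  obtain ⟨s, hs, hsp, s0, s1, s2, hneg⟩ := h.loc.sp
  have ha := h.loc.a0
  have ha1 := h.loc.a1
  have ha0 : a ≠ 0 := ha.ne'
  set F : ℝ[X] := f.map (Int.castRingHom ℝ) with hF
  set R : ℝ[X] := s * (1 - C a * X) with hR
  have f0 : F.coeff 0 = 1 := by rw [hF, coeff_map, h.f0]; simp
  have hRX : R = s - C a * (X * s) := by rw [hR]; ring
  have r0 : R.coeff 0 = -a⁻¹ := by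
    rw [hRX, coeff_sub, coeff_C_mul, coeff_X_mul_zero, mul_zero, sub_zero, s0]
  have hg0 : F.coeff 0 = -a * R.coeff 0 := by
    rw [f0, r0]; field_simp
  obtain ⟨F1, hF1⟩ := exists_quot F R hg0
  have hsp1 := hsp.step (g := -a) (by rw [abs_neg, abs_of_pos ha]; exact ha1) hF1
  refine ⟨s, F1, R - C (-a) * F, hs, hsp1, ?_, ?_, ?_⟩
  · have h1 : X * (R - C (-a) * F - F1) = X * (-((1 - C a * X) * E)) := by
      have e2 := h.e
      rw [hs] at e2
      simp only [map_neg] at hF1 ⊢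
      rw [mul_sub, hF1, hR]
      linear_combination (1 - C a * X) * e2
    exact mul_left_cancel₀ X_ne_zero h1
  · rw [coeff_sub, coeff_C_mul, r0, f0]; ring
  · rw [mul_add, hF1]
    simp only [map_neg]
    ring

theorem one_sub_ne {z : ℂ} {a : ℝ} (ha : 0 < a) (ha1 : a < 1) (hz : ‖z‖ ≤ 1) :
    (1 : ℂ) - a * z ≠ 0 := by
  intro h1
  have h3 : ‖(a : ℂ) * z‖ = 1 := by
    rw [sub_eq_zero] at h1
    rw [← h1, norm_one]
  rw [norm_mul, Complex.norm_real, Real.norm_eq_abs, abs_of_pos ha] at h3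
  nlinarith [norm_nonneg z]

/-- `E` has no zero in the open disc. -/
theorem LE.ne (h : LE q f a n E N) : ∀ z : ℂ, ‖z‖ < 1 → aeval z E ≠ 0 := by
  obtain ⟨s, F1, R1, hs, hsp, hd, hr0, -⟩ := h.step
  intro z hz h0
  have e1 : ∀ w : ℂ, aeval w R1 - aeval w F1 = -((1 - a * w) * aeval w E) := by
    intro w
    have h1 := congrArg (fun p => aeval w p) hd
    simpa using h1
  have hz' : z ∈ ball (0 : ℂ) 1 := by simpa using hz
  have hR : ∀ w ∈ ball (0 : ℂ) 1, aeval w R1 ≠ 0 := fun w hw =>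
    hsp.nz w (by rw [mem_ball_zero_iff] at hw; exact hw.le)
  have hd1 : DifferentiableOn ℂ (fun w : ℂ => aeval w F1 / aeval w R1) (ball 0 1) :=
    ((Polynomial.differentiable_aeval F1).differentiableOn).div
      ((Polynomial.differentiable_aeval R1).differentiableOn) hR
  have hz1 : aeval z F1 / aeval z R1 = 1 := by
    have h2 := e1 z
    rw [h0, mul_zero, neg_zero, sub_eq_zero] at h2
    rw [h2, div_self]
    rw [← h2]
    exact hR z hz'
  have hmax : IsMaxOn (norm ∘ fun w : ℂ => aeval w F1 / aeval w R1) (ball 0 1) z := by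
    intro w hw
    show ‖aeval w F1 / aeval w R1‖ ≤ ‖aeval z F1 / aeval z R1‖
    rw [hz1, norm_one, norm_div, div_le_one (norm_pos_iff.mpr (hR w hw))]
    exact hsp.le w (by rw [mem_ball_zero_iff] at hw; exact hw.le)
  have h3 := Complex.eqOn_of_isPreconnected_of_isMaxOn_norm
    (convex_ball (0 : ℂ) 1).isPreconnected isOpen_ball hd1 hz' hmax
  have h4 : aeval (0 : ℂ) F1 / aeval (0 : ℂ) R1 = 1 := by
    have := h3 (show (0 : ℂ) ∈ ball (0 : ℂ) 1 by simp)
    simpa [hz1] using this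
  have h5 := e1 0
  have h6 : aeval (0 : ℂ) F1 = aeval (0 : ℂ) R1 := by
    rwa [div_eq_one_iff_eq (hR 0 (by simp))] at h4
  rw [h6, sub_self, mul_zero, sub_zero, one_mul] at h5
  have h7 : aeval (0 : ℂ) E = ((E.coeff 0 : ℝ) : ℂ) := by
    rw [← coeff_zero_eq_aeval_zero']; rfl
  rw [h7, h.e0] at h5
  have h8 := h.n0
  have h9 : ((n : ℝ) : ℂ) = 0 := by
    have : -((n : ℝ) : ℂ) = 0 := h5.symm
    exact neg_eq_zero.mp this
  exact h8.ne' (by exact_mod_cast h9)

theorem eq_at_zero {φ : ℂ → ℂ} (hc : ContinuousAt φ 0)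
    (h : ∀ z : ℂ, ‖z‖ < 1 → z ≠ 0 → φ z = 0) : φ 0 = 0 := by
  have h1 : Tendsto φ (𝓝[≠] 0) (𝓝 (φ 0)) := hc.tendsto.mono_left nhdsWithin_le_nhds
  have h2 : Tendsto φ (𝓝[≠] 0) (𝓝 0) := by
    refine tendsto_const_nhds.congr' ?_
    have h3 : ∀ᶠ z : ℂ in 𝓝[≠] 0, z ∈ ball (0 : ℂ) 1 :=
      mem_nhdsWithin_of_mem_nhds (isOpen_ball.mem_nhds (by simp))
    filter_upwards [h3, self_mem_nhdsWithin] with z hz hz0
    exact (h z (by simpa using hz) hz0).symm
  exact tendsto_nhds_unique h1 h2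

/-- **`C_A` is a Caratheodory function.** -/
theorem LE.ca (h : LE q f a n E N) : ∃ c : ℕ → ℝ, Car (fun z => aeval z N / aeval z E) c := by
  obtain ⟨s, F1, R1, hs, hsp, hd, hr0, hadd⟩ := h.step
  have ha := h.loc.a0
  have ha1 := h.loc.a1
  have hn := h.n0
  have hne := h.ne
  have e1 : ∀ w : ℂ, aeval w R1 - aeval w F1 = -((1 - a * w) * aeval w E) := by
    intro w
    have h1 := congrArg (fun p => aeval w p) hd
    simpa using h1
  have e2 : ∀ w : ℂ, w * (aeval w R1 + aeval w F1) = (w + a) * (aeval w s * (1 - a * w)) +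
      (1 + a * w) * aeval w f := by
    intro w
    have h1 := congrArg (fun p => aeval w p) hadd
    simpa [aeval_map_real] using h1
  have e3 : ∀ w : ℂ, aeval w q = (w - a) * aeval w s := by
    intro w
    rw [← aeval_map_real, hs]; simp
  -- the function `K`
  obtain ⟨k, hk, -⟩ := car_quo (N := R1 + F1) (E := R1 - F1) (by
    intro z hz
    rw [map_sub, e1]
    exact neg_ne_zero.mpr (mul_ne_zero (one_sub_ne ha ha1 hz.le) (hne z hz))) (by
    intro z hz
    have h1 := hsp.le z hz.le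
    have h3 : ‖aeval z F1‖ ^ 2 ≤ ‖aeval z R1‖ ^ 2 := pow_le_pow_left₀ (norm_nonneg _) h1 2
    rw [Complex.sq_norm, Complex.sq_norm, Complex.normSq_apply, Complex.normSq_apply] at h3
    rw [map_add, map_sub]
    simp only [map_sub, Complex.mul_re, Complex.add_re, Complex.add_im, Complex.sub_re,
      Complex.sub_im, Complex.conj_re, Complex.conj_im]
    nlinarith)
  have hk0 : (n : ℝ) * k 0 = 2 * (a⁻¹ - a) - n := by
    have h1 := hk.zero
    have h2 : ∀ p : ℝ[X], aeval (0 : ℂ) p = ((p.coeff 0 : ℝ) : ℂ) := by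
      intro p
      rw [← coeff_zero_eq_aeval_zero']; rfl
    rw [h2, h2, ← Complex.ofReal_div] at h1
    have h3 : (R1 + F1).coeff 0 / (R1 - F1).coeff 0 = k 0 := by exact_mod_cast h1
    have h4 : (R1 - F1).coeff 0 = -n := by
      rw [hd, coeff_neg, mul_coeff_zero, h.e0]; simp
    have h5 : (R1 + F1).coeff 0 = n - 2 * (a⁻¹ - a) := by
      have : (R1 + F1).coeff 0 = 2 * R1.coeff 0 - (R1 - F1).coeff 0 := by
        rw [coeff_add, coeff_sub]; ring
      rw [this, h4, hr0]; ring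
    rw [h4, h5] at h3
    rw [← h3]
    field_simp
    ring
  obtain ⟨G, hG, hGz⟩ := hk.mulp a
  -- the relation
  have key : ∀ z : ℂ, ‖z‖ < 1 → (1 - (a : ℂ) ^ 2) * aeval z N - G z * aeval z E = 0 := by
    have k1 : ∀ z : ℂ, ‖z‖ < 1 → z ≠ 0 →
        (1 - (a : ℂ) ^ 2) * aeval z N - G z * aeval z E = 0 := by
      intro z hz hz0
      have hE := hne z hz
      have h1a := one_sub_ne ha ha1 hz.le
      have h1 := hGz z hz
      have hK : ((aeval z R1 + aeval z F1) / (aeval z R1 - aeval z F1)) * ((1 - a * z) *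
          aeval z E) = -(aeval z R1 + aeval z F1) := by
        rw [e1]; field_simp
      simp only [map_add, map_sub] at h1
      set K := (aeval z R1 + aeval z F1) / (aeval z R1 - aeval z F1) with hKd
      have hak : (a : ℂ) * ((n : ℂ) * (k 0 : ℂ)) = 2 * (1 - (a : ℂ) ^ 2) - a * n := by
        have h2 : a * ((n : ℝ) * k 0) = 2 * (1 - a ^ 2) - a * n := by
          rw [hk0]; field_simp
        exact_mod_cast h2
      have hn' : (n : ℂ) ≠ 0 := by exact_mod_cast hn.ne'
      have hN := h.evN z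
      have hEe := h.ev z
      have h2 := e2 z
      have h3 := e3 z
      have h4 : (n : ℂ) * (z * z) * ((1 - (a : ℂ) ^ 2) * aeval z N - G z * aeval z E) = 0 := by
        have hN' : (n : ℂ) * (z * aeval z N) = 2 * (1 - z ^ 2) * aeval z E -
            n * (aeval z q + aeval z f) := by
          rw [hN]; field_simp
        linear_combination ((1 - (a : ℂ) ^ 2) * z) * hN' - (n : ℂ) * z * aeval z E * h1 -
          (n : ℂ) * z * (z - a) * hK + (n : ℂ) * (z - a) * h2 -
          z * (1 - z ^ 2) * aeval z E * hak + (n : ℂ) * a * (1 - z ^ 2) * hEe +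
          (-(n : ℂ) * (1 - (a : ℂ) ^ 2) * z - n * a * (1 - z ^ 2)) * h3
      exact (mul_eq_zero.mp h4).resolve_left
        (mul_ne_zero hn' (mul_ne_zero hz0 hz0))
    intro z hz
    by_cases hz0 : z = 0
    · subst hz0
      refine eq_at_zero (φ := fun z => (1 - (a : ℂ) ^ 2) * aeval z N - G z * aeval z E) ?_ k1
      have hGc : ContinuousAt G 0 :=
        (hG.diff.differentiableAt (isOpen_ball.mem_nhds (by simp))).continuousAt
      have hNc : ContinuousAt (fun z : ℂ => aeval z N) 0 :=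
        (Polynomial.differentiable_aeval N).continuous.continuousAt
      have hEc : ContinuousAt (fun z : ℂ => aeval z E) 0 :=
        (Polynomial.differentiable_aeval E).continuous.continuousAt
      exact (hNc.const_mul _).sub (hGc.mul hEc)
    · exact k1 z hz hz0
  obtain ⟨c, hc, -⟩ := car_quo (N := N) (E := E) hne (by
    intro z hz
    have h1 := key z hz
    have hpos : 0 < 1 - a ^ 2 := by nlinarith
    have h2 : ((1 - a ^ 2 : ℝ) : ℂ) * (aeval z N * (starRingEnd ℂ) (aeval z E)) =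
        ((Complex.normSq (aeval z E) : ℝ) : ℂ) * G z := by
      rw [← Complex.mul_conj]
      push_cast
      linear_combination (starRingEnd ℂ) (aeval z E) * h1
    have h3 := congrArg Complex.re h2
    rw [Complex.re_ofReal_mul, Complex.re_ofReal_mul] at h3
    have h4 : 0 ≤ (1 - a ^ 2) * (aeval z N * (starRingEnd ℂ) (aeval z E)).re := by
      rw [h3]
      exact mul_nonneg (Complex.normSq_nonneg _) (hG.pos z hz)
    exact nonneg_of_mul_nonneg_right h4 hpos)
  exact ⟨c, hc⟩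

end Pool.Agent.B5.H39
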