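import Pool.Agent.Lib.MP_b5021c_nt.O1.H39.CaE
import Pool.Agent.Lib.MP_b5021c_nt.IfaceO1
import Pool.Agent.Lib.MP_b5021c_nt.SF.H88.Hpg
import Pool.Agent.Lib.MP_b5021c_nt.B.H98.E3Hp
import Pool.Agent.Lib.MP_b5021c_nt.B.H05.Pmf
import Pool.Agent.Lib.MP_b5021c_nt.B.H17.Nr3
import Pool.Agent.Lib.MP_b5021c_nt.B.H56.Gen
import Pool.Agent.Lib.MP_b5021c_nt.H75.Nn3
import Pool.Agent.Lib.MP_b5021c_nt.SF.H59.Fjt

/-!
# The masses at an A-load
-/

namespace Pool.Agent.B5.H39

open Polynomial Metric Filter Topology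
open Pool.Agent.B5.Nr.Sch
open Pool.Agent.B5.H39.Cara

/-- The circle point. -/
def cpt (z : ℂ) (hz : ‖z‖ = 1) : Circle := ⟨z, mem_sphere_zero_iff_norm.mpr hz⟩

theorem nr3' : Nr3S := H17.nr3 (Pool.Agent.B5.H75.nn3 H56.gen)

/-- The analytic completion of a mass. -/
theorem mass_r {t : RO ℤ} (ht : t ≠ 0) (hN : NnR t) : ∃ (r : ℝ[X]) (c : ℕ → ℝ),
    Car (fun z => aeval z r) c ∧ c 0 = t.coeff 0 ∧ (∀ k : ℕ, c (k + 1) = 2 * t.coeff (k + 1)) ∧
    (∀ (z : ℂ) (hz : ‖z‖ = 1), (aeval z r).re = (evR (cpt z hz) t).re) ∧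
    (∀ k : ℕ, r.coeff k = c k) ∧
    1 ≤ t.coeff 0 ∧ (∀ k : ℤ, k ≠ 0 → |t.coeff k| < t.coeff 0) ∧ (t.coeff 0 = 1 → t = 1) := by
  obtain ⟨h0im, hk, h01⟩ := nr3' ℤ t ht hN
  have e0 : ∀ x : ℤ, (Coef.emb x : ℂ) = (x : ℂ) := fun x => rfl
  have hlt : ∀ k : ℤ, k ≠ 0 → |t.coeff k| < t.coeff 0 := by
    intro k hk0
    have h := (hk k hk0).1
    rw [e0, e0, Complex.norm_intCast, Complex.intCast_re] at h
    exact_mod_cast h
  have hsym : rsh t = t := by
    refine LaurentPolynomial.ext fun k => ?_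
    rw [H17.rsh_coeff]
    by_cases hk0 : k = 0
    · subst hk0
      rfl
    · have h := (hk k hk0).2
      rw [e0, e0] at h
      have h3 : t.coeff (-k) = t.coeff k := by
        have h4 : (starRingEnd ℂ) ((t.coeff k : ℤ) : ℂ) = ((t.coeff k : ℤ) : ℂ) := by simp
        rw [h4] at h
        exact_mod_cast h
      rw [h3]
      rfl
  obtain ⟨r', hr0, hre, -, hrn⟩ := Pool.Agent.B5.H05.pmf ℤ t 0 (by simp) hsym
  obtain ⟨r, hr⟩ : ∃ r : ℝ[X], r.map Complex.ofRealHom = r' := by
    have h1 : r' ∈ Polynomial.lifts Complex.ofRealHom := by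
      rw [Polynomial.lifts_iff_coeff_lifts]
      intro n
      cases n with
      | zero => exact ⟨(t.coeff 0 : ℝ), by rw [hr0, e0]; simp⟩
      | succ n => exact ⟨2 * (t.coeff ((n : ℤ) + 1) : ℝ), by rw [hrn, e0]; simp⟩
    exact Polynomial.mem_lifts _ |>.mp h1
  have hev : ∀ z : ℂ, aeval z r = r'.eval z := by
    intro z
    rw [← hr, eval_map]
    rfl
  have hc0 : r.coeff 0 = t.coeff 0 := by
    have h1 := congrArg (fun p => p.coeff 0) hr
    simp only [coeff_map, hr0, e0] at h1
    have h2 : ((r.coeff 0 : ℝ) : ℂ) = ((t.coeff 0 : ℝ) : ℂ) := by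
      rw [show ((t.coeff 0 : ℝ) : ℂ) = ((t.coeff 0 : ℤ) : ℂ) by simp, ← h1]; rfl
    exact_mod_cast h2
  have hcn : ∀ n : ℕ, r.coeff (n + 1) = 2 * t.coeff ((n : ℤ) + 1) := by
    intro n
    have h1 := congrArg (fun p => p.coeff (n + 1)) hr
    simp only [coeff_map, hrn, e0] at h1
    have h2 : ((r.coeff (n + 1) : ℝ) : ℂ) = ((2 * (t.coeff ((n : ℤ) + 1) : ℝ) : ℝ) : ℂ) := by
      rw [show ((2 * (t.coeff ((n : ℤ) + 1) : ℝ) : ℝ) : ℂ) =
        2 * ((t.coeff ((n : ℤ) + 1) : ℤ) : ℂ) by simp, ← h1]; rfl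
    exact_mod_cast h2
  have hcirc : ∀ (z : ℂ) (hz : ‖z‖ = 1), (aeval z r).re = (evR (cpt z hz) t).re := by
    intro z hz
    rw [hev, hre (cpt z hz)]; rfl
  have hpos : ∀ z : ℂ, ‖z‖ < 1 → 0 ≤ (aeval z r).re := by
    refine re_nonneg_of_circle (h := fun z : ℂ => aeval z r) ?_ ?_
    · exact DifferentiableOn.diffContOnCl (Polynomial.differentiable_aeval r).differentiableOn
    · intro z hz
      rw [hcirc z hz]
      exact (hN (cpt z hz)).2
  have h1le : 1 ≤ t.coeff 0 := by
    have h := hlt 1 one_ne_zero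
    have := abs_nonneg (t.coeff 1)
    omega
  refine ⟨r, fun k => r.coeff k, ⟨fun z _ => poly_sum r z, hpos⟩, hc0, hcn, hcirc,
    fun _ => rfl, h1le, hlt, fun h1 => ?_⟩
  rcases h01 with h | h
  · exact h
  · rw [e0, Complex.intCast_re, h1] at h
    norm_num at h

/-- `C_A - r` is a Caratheodory function. -/
theorem LE.sub {q f : ℤ[X]} {a : ℝ} {n : ℕ} {E N : ℝ[X]} (h : LE q f a n E N) {t : RO ℤ}
    (hm : MasA t q f) {r : ℝ[X]}
    (hr : ∀ (z : ℂ) (hz : ‖z‖ = 1), (aeval z r).re = (evR (cpt z hz) t).re) :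
    ∃ c : ℕ → ℝ, Car (fun z => aeval z (N - r * E) / aeval z E) c := by
  obtain ⟨c, hc⟩ := h.ca
  have hne := h.ne
  have hev : ∀ (p : ℝ[X]) (z : ℂ), (p.map Complex.ofRealHom).eval z = aeval z p := by
    intro p z
    rw [eval_map]; rfl
  -- a bound for `r`
  obtain ⟨B, hB⟩ : ∃ B : ℝ, ∀ z : ℂ, ‖z‖ ≤ 1 → ‖aeval z r‖ ≤ B := by
    have h1 : IsCompact (closedBall (0 : ℂ) 1) := isCompact_closedBall 0 1
    obtain ⟨B, hB⟩ := h1.exists_bound_of_continuousOn (f := fun z : ℂ => aeval z r)
      (Polynomial.differentiable_aeval r).continuous.continuousOn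
    exact ⟨B, fun z hz => hB z (by simpa using hz)⟩
  have hg := Pool.Agent.B5.SFH88.hpg_st Pool.Agent.B5.H98.e3hp
    (E.map Complex.ofRealHom) ((N - r * E).map Complex.ofRealHom) B (by
      intro z hz
      rw [hev]
      exact hne z hz) (by
      intro z hz
      rw [hev, hev, map_sub, map_mul]
      have h1 : 0 ≤ (aeval z N * (starRingEnd ℂ) (aeval z E)).re := by
        have h2 := hc.pos z hz
        have h3 : aeval z N * (starRingEnd ℂ) (aeval z E) =
            ((Complex.normSq (aeval z E) : ℝ) : ℂ) * (aeval z N / aeval z E) := by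
          rw [← Complex.mul_conj]
          have := hne z hz
          field_simp
        rw [h3, Complex.re_ofReal_mul]
        exact mul_nonneg (Complex.normSq_nonneg _) h2
      have h4 : ((aeval z N - aeval z r * aeval z E) * (starRingEnd ℂ) (aeval z E)) =
          aeval z N * (starRingEnd ℂ) (aeval z E) -
            ((Complex.normSq (aeval z E) : ℝ) : ℂ) * aeval z r := by
        rw [← Complex.mul_conj]; ring
      rw [h4, Complex.sub_re, Complex.re_ofReal_mul, Complex.normSq_eq_norm_sq]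
      have h5 : (aeval z r).re ≤ B := (Complex.re_le_norm _).trans (hB z hz.le)
      nlinarith [mul_le_mul_of_nonneg_left h5 (sq_nonneg ‖aeval z E‖)]) (by
      intro z hz
      rw [hev, hev, map_sub, map_mul]
      have h4 : ((aeval z N - aeval z r * aeval z E) * (starRingEnd ℂ) (aeval z E)) =
          aeval z N * (starRingEnd ℂ) (aeval z E) -
            ((Complex.normSq (aeval z E) : ℝ) : ℂ) * aeval z r := by
        rw [← Complex.mul_conj]; ring
      rw [h4, Complex.sub_re, Complex.re_ofReal_mul, Complex.normSq_eq_norm_sq, hr z hz]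
      have h1 := hm (cpt z hz)
      have hz1 := conj_of_norm hz
      have hz0 : z ≠ 0 := by
        rintro rfl
        simp at hz
      have e1 : aeval z (q - f) = -(z * aeval z E) := by rw [h.ev, map_sub]; ring
      have h1' : (evR (cpt z hz) t).re * ‖aeval z (q - f)‖ ^ 2 ≤
        ‖aeval z q‖ ^ 2 - ‖aeval z f‖ ^ 2 := h1
      rw [e1, norm_neg, norm_mul, hz, one_mul] at h1'
      -- `Re (N conj E) = |q|² - |f|²`
      have h2 : (aeval z N * (starRingEnd ℂ) (aeval z E)).re =
          ‖aeval z q‖ ^ 2 - ‖aeval z f‖ ^ 2 := by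
        have h5 := h.evN z
        have h6 := h.ev z
        have hE : aeval z E = (starRingEnd ℂ) z * (aeval z f - aeval z q) := by
          rw [← h6]
          linear_combination (-(aeval z E)) * hz1
        have hN : aeval z N = (starRingEnd ℂ) z * (2 / n * (1 - z ^ 2) * aeval z E -
            (aeval z q + aeval z f)) := by
          rw [← h5]
          linear_combination (-(aeval z N)) * hz1
        have h7 : aeval z N * (starRingEnd ℂ) (aeval z E) =
            (2 / n * ((starRingEnd ℂ) z - z)) * ((Complex.normSq (aeval z E) : ℝ) : ℂ) -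
              (aeval z q + aeval z f) * (starRingEnd ℂ) (aeval z f - aeval z q) := by
          rw [← Complex.mul_conj]
          have h8 : (starRingEnd ℂ) (aeval z E) = z * (starRingEnd ℂ) (aeval z f - aeval z q) := by
            rw [hE, map_mul, Complex.conj_conj]
          have h9 : (starRingEnd ℂ) z * (starRingEnd ℂ) (aeval z E) =
              (starRingEnd ℂ) (aeval z f - aeval z q) := by
            rw [h8]
            linear_combination ((starRingEnd ℂ) (aeval z f - aeval z q)) * hz1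
          rw [hN]
          linear_combination (-(aeval z q + aeval z f)) * h9 -
            (2 / n * z * aeval z E * (starRingEnd ℂ) (aeval z E)) * hz1
        rw [h7, Complex.sub_re]
        have h10 : ((2 / (n : ℂ) * ((starRingEnd ℂ) z - z)) *
            ((Complex.normSq (aeval z E) : ℝ) : ℂ)).re = 0 := by
          have e : (2 / (n : ℂ) * ((starRingEnd ℂ) z - z)) *
            ((Complex.normSq (aeval z E) : ℝ) : ℂ) =
            ((2 / (n : ℝ) * Complex.normSq (aeval z E) : ℝ) : ℂ) * ((starRingEnd ℂ) z - z) := by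
            push_cast; ring
          rw [e, Complex.re_ofReal_mul]
          simp
        rw [h10, Complex.sq_norm, Complex.sq_norm, Complex.normSq_apply, Complex.normSq_apply]
        simp only [map_sub, Complex.mul_re, Complex.add_re, Complex.add_im, Complex.sub_re,
          Complex.sub_im, Complex.conj_re, Complex.conj_im]
        ring
      rw [h2]
      nlinarith)
  obtain ⟨c', hc', -⟩ := car_quo (N := N - r * E) (E := E) hne (by
    intro z hz
    have := hg z hz
    rwa [hev, hev] at this)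
  exact ⟨c', hc'⟩

end Pool.Agent.B5.H39
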